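import Pool.Agent.X328.PB.Main

/-!
# Finite groups of automorphisms and Bloch's conjecture for surfaces with `p_g = 0`

Let `X` be a surface and let `G` be a finite group which acts on `X`. Bloch's conjecture for `X`
(with `p_g(X) = 0`) says that the diagonal is degenerate: rationally equivalent, with rational
coefficients, to a cycle supported on `V × X ∪ X × V` for a curve `V`. For (a resolution of) the
quotient `X / H` by a subgroup `H` it says that the sum of the graphs of the elements of `H` is
degenerate.

* If `H_i`, `i ∈ I`, are at least two subgroups of `G` such that every element different from `1` of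
  a subgroup `K` is in exactly one `H_i`, and `H_i ≤ K` (a partition of `K`), then Bloch's conjecture
  holds for `X` if and only if it holds for all `X / H_i`.
* For instance `K` may be any subgroup all of whose elements different from `1` have prime order,
  unless the order of `K` is `1` or a prime number, and the `H_i` are all its subgroups of prime order.
* Let `σ`, `τ` be involutions of `X` such that `σ τ` has finite order. Bloch's conjecture holds for
  `X` if and only if it holds for `X / σ`, `X / τ` and `X / ⟨σ τ⟩`.
* Suppose that Bloch's conjecture fails for `X` and holds for the quotients of `X` by all subgroups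
  of `G` of prime order. Then different elements of `G` are different modulo degenerate
  correspondences, all subgroups of `G` whose order is a product `p q` of two prime numbers (`p = q`
  is allowed) are cyclic, all abelian subgroups are cyclic, and `G` has at most one element of
  order two.
-/

open CategoryTheory AlgebraicGeometry

universe u v

namespace Pool.Agent.Results.MP_7ebcb6_ag.AutomorphismGroups

open Pool.Agent.H914 Pool.Agent.H914.VarClass Pool.Agent.H914.VarClass.Obj Pool.Agent.W492.BB
  Pool.Agent.W550.Corr Pool.Agent.TH133 Pool.Agent.Y152.AS Pool.Agent.X307.BV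
  Pool.Agent.X307.PG Pool.Agent.X328.PB

variable {k : Type u} [Field k] {𝒱 : VarClass k}

/-- Bloch's conjecture for the surface `X`, where `p_g(X) = 0`: the diagonal of `X` is rationally
equivalent, with rational coefficients, to a degenerate correspondence (a sum of compositions
`X → Y → X` of correspondences through curves `Y`). -/
def Bloch (C : TheoryData.{u, v, 0} 𝒱 ℚ) (X : 𝒱.Obj) : Prop := IsDegenerate C (dg C X)

open Classical in
/-- Bloch's conjecture for (a resolution of) the quotient `X / H`, where the finite group `G` acts on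
the surface `X` by `ρ` and `H` is a subgroup of `G`: the sum of the graphs of the elements of `H`,
which is the composition of the transpose of the graph of `X → X / H` with this graph, is
degenerate. -/
def BlochQuotient (C : TheoryData.{u, v, 0} 𝒱 ℚ) {X : 𝒱.Obj} {G : Type} [Group G] [Fintype G]
    (ρ : G →* Aut X) (H : Subgroup G) : Prop :=
  IsDegenerate C (∑ g : G with g ∈ H, C.graph (ρ g).hom)

variable {C : TheoryData.{u, v, 0} 𝒱 ℚ} [hC : IsChowProj C]

lemma quotient_of_bloch {X : 𝒱.Obj} (hX : X.dim = 2) {G : Type} [Group G] [Fintype G]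
    (ρ : G →* Aut X) (h : Bloch C X) (H : Subgroup G) : BlochQuotient C ρ H := by
  unfold BlochQuotient
  rw [isDegenerate_iff]
  exact Submodule.sum_mem _ fun g _ => (isDegenerate_iff.1 (graph_degenerate hX h _))

lemma bloch_iff {X : 𝒱.Obj} : Bloch C X ↔
    (Submodule.Quotient.mk (dg C X) : C.A (X.prod X) ⧸ degenerate C X X) = 0 :=
  (mk_eq_zero _).symm

lemma quotient_iff {X : 𝒱.Obj} (hX : X.dim = 2) {G : Type} [Group G] [Fintype G]
    (ρ : G →* Aut X) (H : Subgroup G) : BlochQuotient C ρ H ↔
      nrm (rep X hX ρ) H (Submodule.Quotient.mk (dg C X)) = 0 := by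
  rw [nrm_dg, mk_eq_zero]
  rfl

/-- **Theorem.** Let the finite group `G` act on the surface `X`. Bloch's conjecture for `X` is
equivalent to Bloch's conjecture for the quotients by the parts of a partition of a subgroup, for
instance by all subgroups of prime order of a subgroup all of whose elements have prime order, and
by `⟨σ⟩`, `⟨τ⟩`, `⟨σ τ⟩` for two involutions. If it fails for `X` and holds for the quotients by all
subgroups of prime order, then the subgroups of order `p q` of `G`, for prime numbers `p`, `q`, and
the abelian subgroups are cyclic, there is at most one element of order two, and the graphs of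
different elements are different modulo degenerate correspondences. -/
theorem result (X : 𝒱.Obj) (hX : X.dim = 2) (G : Type) [Group G] [Fintype G] (ρ : G →* Aut X) :
    (∀ (ι : Type) [Fintype ι] (H : ι → Subgroup G) (K : Subgroup G), 2 ≤ Fintype.card ι →
      (∀ i, H i ≤ K) → (∀ g ∈ K, g ≠ 1 → ∃! i, g ∈ H i) →
      (Bloch C X ↔ ∀ i, BlochQuotient C ρ (H i))) ∧
    (∀ K : Subgroup G, (∀ g ∈ K, g ≠ 1 → (orderOf g).Prime) → Nat.card K ≠ 1 →
      ¬ (Nat.card K).Prime →
      (Bloch C X ↔ ∀ P : Subgroup G, P ≤ K → (Nat.card P).Prime → BlochQuotient C ρ P)) ∧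
    (∀ σ τ : Aut X, σ ^ 2 = 1 → τ ^ 2 = 1 → ∀ n : ℕ, 0 < n → (σ * τ) ^ n = 1 →
      (Bloch C X ↔ IsDegenerate C (dg C X + C.graph σ.hom) ∧
        IsDegenerate C (dg C X + C.graph τ.hom) ∧
        IsDegenerate C (∑ i ∈ Finset.range n, C.graph ((σ * τ) ^ i).hom))) ∧
    (¬ Bloch C X → (∀ P : Subgroup G, (Nat.card P).Prime → BlochQuotient C ρ P) →
      (∀ g h : G, IsDegenerate C (C.graph (ρ g).hom - C.graph (ρ h).hom) → g = h) ∧
      (∀ (K : Subgroup G) (p q : ℕ), p.Prime → q.Prime → Nat.card K = p * q → IsCyclic K) ∧
      (∀ K : Subgroup G, (∀ a ∈ K, ∀ b ∈ K, a * b = b * a) → IsCyclic K) ∧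
      ∀ σ τ : G, orderOf σ = 2 → orderOf τ = 2 → σ = τ) := by
  refine ⟨?_, ?_, ?_, ?_⟩
  · intro ι _ H K hι hle hpart
    refine ⟨fun h i => quotient_of_bloch hX ρ h (H i), fun h => ?_⟩
    rw [bloch_iff]
    exact eq_zero_of_partition (rep X hX ρ) H K hι hle hpart fun i => (quotient_iff hX ρ _).1 (h i)
  · intro K hK h1 hp
    refine ⟨fun h P _ _ => quotient_of_bloch hX ρ h P, fun h => ?_⟩
    rw [bloch_iff]
    exact eq_zero_of_prime_orders (rep X hX ρ) K hK h1 hp fun P hPK hP =>
      (quotient_iff hX ρ _).1 (h P hPK hP)
  · intro σ τ _ _ n hn _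
    constructor
    · intro h
      refine ⟨IsDegenerate.add _ _ h (graph_degenerate hX h _),
        IsDegenerate.add _ _ h (graph_degenerate hX h _), ?_⟩
      rw [isDegenerate_iff]
      exact Submodule.sum_mem _ fun g _ => (isDegenerate_iff.1 (graph_degenerate hX h _))
    · rintro ⟨hσ, hτ, hn'⟩
      rw [isDegenerate_iff] at hσ hτ hn'
      -- modulo degenerate correspondences the product is the identity
      have hστ : C.graph (σ * τ).hom - dg C X ∈ degenerate C X X := by
        have h1 := degenerate_comp_right hX hτ (graph_mem2 hX hX σ.hom)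
        rw [add_comp, dg_comp, graph_comp] at h1
        have h2 : (σ * τ).hom = τ.hom ≫ σ.hom := rfl
        rw [h2]
        have h3 := Submodule.sub_mem _ h1 hσ
        have h4 : C.graph σ.hom + C.graph (τ.hom ≫ σ.hom) - (dg C X + C.graph σ.hom) =
            C.graph (τ.hom ≫ σ.hom) - dg C X := by abel
        rwa [h4] at h3
      have hpow : ∀ i : ℕ, C.graph ((σ * τ) ^ i).hom - dg C X ∈ degenerate C X X := by
        intro i
        induction i with
        | zero =>
          rw [pow_zero]
          have h1 : C.graph (1 : Aut X).hom = dg C X := rfl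
          rw [h1, sub_self]
          exact Submodule.zero_mem _
        | succ i ih =>
          have h1 := degenerate_comp_right hX ih (graph_mem2 hX hX (σ * τ).hom)
          rw [sub_comp, dg_comp, graph_comp] at h1
          have h2 : ((σ * τ) ^ (i + 1)).hom = ((σ * τ) ^ i).hom ≫ (σ * τ).hom := by
            rw [pow_succ']
            rfl
          rw [h2]
          have h3 := Submodule.add_mem _ h1 hστ
          rwa [sub_add_sub_cancel] at h3
      have hsum : (n : ℚ) • dg C X ∈ degenerate C X X := by
        have h1 : ∑ i ∈ Finset.range n, (C.graph ((σ * τ) ^ i).hom - dg C X) ∈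
            degenerate C X X := Submodule.sum_mem _ fun i _ => hpow i
        rw [Finset.sum_sub_distrib, Finset.sum_const, Finset.card_range] at h1
        have h2 := Submodule.sub_mem _ hn' h1
        rw [sub_sub_cancel] at h2
        rwa [Nat.cast_smul_eq_nsmul]
      have h3 : ((n : ℚ)⁻¹) • ((n : ℚ) • dg C X) ∈ degenerate C X X := Submodule.smul_mem _ _ hsum
      rw [smul_smul, inv_mul_cancel₀ (by exact_mod_cast hn.ne'), one_smul] at h3
      exact isDegenerate_iff.2 h3
  · intro hX0 hq
    obtain ⟨h1, h2, h3, h4⟩ := structure_of_group (rep X hX ρ)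
      (v := (Submodule.Quotient.mk (dg C X) : C.A (X.prod X) ⧸ degenerate C X X))
      (fun h => hX0 (bloch_iff.2 h)) (fun P hP => (quotient_iff hX ρ P).1 (hq P hP))
    refine ⟨fun g h hgh => h1 g h ?_, h2, h3, h4⟩
    rw [rep_dg, rep_dg, ← sub_eq_zero, ← Submodule.Quotient.mk_sub]
    exact (mk_eq_zero _).2 hgh

end Pool.Agent.Results.MP_7ebcb6_ag.AutomorphismGroups
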