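import Pool.Agent.X307.PG.Exch

/-!
# Bloch's conjecture for surfaces with `p_g = 0` dominated by surfaces with symmetric products of
zero-cycles and automorphisms of odd order
-/

open CategoryTheory AlgebraicGeometry

universe u v w

namespace Pool.Agent.Results.MP_7ebcb6_ag.ExchangeAutomorphisms

open Pool.Agent.H914 VarClass Obj Pool.Agent.W492.BB Pool.Agent.W550.Corr
open Pool.Agent.TH133 Pool.Agent.Y152.AS Pool.Agent.X307 BV PG

/-- **Theorem.** Let `S` be a surface such that `α × β = β × α` in `CH_0(S × S)_ℚ` for all
`α, β ∈ F^2 CH_0(S)_ℚ` (in the form `SatisfiesVoisin`), with finitely many automorphisms `h_i`, at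
least one, such that `∑ [h_i²]` is degenerate (for example, the elements of a finite group `G` of odd
order such that Bloch's conjecture holds for `S / G`).
* Every surface `X` with `p_g(X) = 0` (the diagonal is homologically equivalent to a degenerate
  correspondence) which is dominated by `S` satisfies Bloch's conjecture: the diagonal of `X` is
  rationally equivalent to a degenerate correspondence (hence `F^2 CH_0(X)_ℚ = 0`).
In particular, for a surface `X` with `p_g(X) = 0` and with such automorphisms:
* Bloch's conjecture for `X` is equivalent to `α × β = β × α` in `CH_0(X × X)_ℚ` for all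
  `α, β ∈ F^2 CH_0(X)_ℚ`. -/
theorem result {k : Type u} [Field k] {𝒱 : VarClass k} {C : TheoryData.{u, v, 0} 𝒱 ℚ}
    [IsChowProj C] {K : Type w} [Field K] (H : WeilTheoryData.{u, v, w} C K) [IsWeilProj H]
    (hPic : PicardRigid H) :
    (∀ S X : 𝒱.Obj, S.dim = 2 → X.dim = 2 → SatisfiesVoisin H S → SumOfSquaresDegenerate C S →
      Dominates C S X → IsHomDegenerate H (dg C X) →
        IsDegenerate C (dg C X)) ∧
    (∀ X : 𝒱.Obj, X.dim = 2 → SumOfSquaresDegenerate C X → IsHomDegenerate H (dg C X) →
      (IsDegenerate C (dg C X) ↔ SatisfiesVoisin H X)) := PG.main hPic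

end Pool.Agent.Results.MP_7ebcb6_ag.ExchangeAutomorphisms
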