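import Pool.Agent.X308.P.Surf

/-!
# Bloch's conjecture for surfaces with `p_g = 0` and zero-cycles on products with curves

`𝒱` is a class of smooth projective geometrically irreducible varieties over the field `k` closed
under products (for example all of them), `C` the Chow groups with rational coefficients (in the
form of their formal properties, `IsChowProj`), `H` a Weil cohomology theory (`IsWeilProj`), and
`SurfaceProperties H` records two known facts: homologically trivial divisors on a product `X × Y`
are sums of pull-backs of divisors from `X` and from `Y` (with rational coefficients), and every
surface has a Chow-Kunneth decomposition as constructed by Murre.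

Let `X` be a surface with `p_g = 0`, in the form `IsHomDegenerate H (dg C X)`: the diagonal of `X`
is homologically equivalent to a degenerate correspondence, that is a sum of compositions
`X → Y → X` through curves (over `ℂ` this is equivalent to `p_g = 0` by the theorem of Lefschetz on
classes of type `(1, 1)`). Bloch's conjecture for `X` is the statement that the diagonal of `X` is
rationally equivalent to a degenerate correspondence; over `ℂ` this is equivalent to `d(X) = 0`, to
`F^2 CH_0(X) = 0` and to the finite-dimensionality of `B(X)` (Bloch and Srinivas), `F^2` being the
kernel of the Albanese map.

Let `T` be any curve of genus `g > 0` (`PositiveGenus`: the self-intersection number `2 - 2 g` of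
the diagonal of `T` is not `2`).

Theorem. Bloch's conjecture holds for `X` if and only if `a × c = 0` in `CH_0(X × T)` for all
`a ∈ F^2 CH_0(X)` and all zero-cycles `c` of degree zero on `T`, in the form
`ExternalProductsVanish`: for some correspondence `p` on `X`, which is the diagonal up to a
degenerate correspondence, `p × (Δ_T - o × T - T × o)` is supported on `(divisor) × (X × T)`
(over `ℂ` the two forms are equivalent by the theorem of Bloch and Srinivas).

In particular, if also `q(X) = 0`, any two points of `X` are rationally equivalent (rationally) if
and only if `(x, s) + (y, t)` and `(x, t) + (y, s)` are rationally equivalent on the threefold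
`X × T` for all points `x`, `y` of `X` and `s`, `t` of one curve `T` of positive genus. In terms of
the filtration of Bloch and Beilinson: `F^3 CH_0(X × T) = 0` implies `F^2 CH_0(X) = 0`.

Idea of the proof: if `p × (Δ_T - o × T - T × o)` is supported on `(divisor) × (X × T)`, then, as in
the work of Bloch and Srinivas, its products with homologically trivial correspondences kill the
homologically trivial cycles of codimension two on `(X × T) × W` for all `W`, in particular their
own components (for `W` the divisor), so they are nilpotent. Contracting over `T` multiplies by
`- 2 g` and gives the assertion for `X`.
-/

set_option autoImplicit false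

open CategoryTheory AlgebraicGeometry

universe u v w

namespace Pool.Agent.Results.MP_7ebcb6_ag.ProductsWithCurves

open Pool.Agent.H914 Pool.Agent.W492.BB Pool.Agent.W550.Corr Pool.Agent.TH133 Pool.Agent.X308.S
  Pool.Agent.X308.P

/-- Bloch's conjecture for a surface `X` with `p_g = 0` is equivalent to the vanishing of the
external products `a × c` on `X × T`, `a` in the Albanese kernel of `X` and `c` a zero-cycle of
degree zero on a given curve `T` of positive genus. -/
theorem result {k : Type u} [Field k] {𝒱 : VarClass k} (C : TheoryData.{u, v, 0} 𝒱 ℚ)
    [IsChowProj C] {K : Type w} [Field K] (H : WeilTheoryData.{u, v, w} C K) [IsWeilProj H]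
    (hS : SurfaceProperties H) (X T : 𝒱.Obj) (hX : X.dim = 2)
    (hpg : IsHomDegenerate H (dg C X)) (hT : PositiveGenus C T) :
    (IsDegenerate C (dg C X) ↔ ExternalProductsVanish C X T) ∧
      (ExternalProductsVanish C X T → AlbKerVanishes C X) :=
  bloch_products_with_curves hS hX hpg hT

end Pool.Agent.Results.MP_7ebcb6_ag.ProductsWithCurves
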