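import Pool.Agent.X307.PG.Sym

/-!
# Bloch's conjecture for surfaces with `p_g = 0` and squares of zero-cycles
-/

open CategoryTheory AlgebraicGeometry

universe u v w

namespace Pool.Agent.Results.MP_7ebcb6_ag.SquaresOfZeroCycles

open Pool.Agent.H914 Pool.Agent.H914.VarClass Pool.Agent.H914.VarClass.Obj Pool.Agent.W492.BB
  Pool.Agent.W550.Corr Pool.Agent.TH133 Pool.Agent.Y152.AS Pool.Agent.X307.BV
  Pool.Agent.X307.PG

/-- **Theorem.** Let `X` be a surface whose diagonal is homologically equivalent to a degenerate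
correspondence (over `ℂ` this is the condition `p_g(X) = 0`, by the theorem of Lefschetz on classes
of type `(1, 1)`). Then the following are equivalent:
* the diagonal of `X` is rationally equivalent to a degenerate correspondence (over `ℂ` this is
  Bloch's conjecture for `X`: `CH_0(X)` is finite-dimensional, equivalently
  `F^2 CH_0(X) = 0`; Bloch and Srinivas);
* `α × α = 0` in `CH_0(X × X)_ℚ` for all `α ∈ F^2 CH_0(X)_ℚ` (in the form `SquaresVanish`);
and they imply `F^2 CH_0(X)_ℚ = 0`. -/
theorem result {k : Type u} [Field k] {𝒱 : VarClass k} {C : TheoryData.{u, v, 0} 𝒱 ℚ}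
    [IsChowProj C] {K : Type w} [Field K] (H : WeilTheoryData.{u, v, w} C K) [IsWeilProj H]
    (hPic : PicardRigid H) (X : 𝒱.Obj) (hX : X.dim = 2) (hpg : IsHomDegenerate H (dg C X)) :
    (IsDegenerate C (dg C X) ↔ SquaresVanish H X) ∧
      (SquaresVanish H X → ∀ α : C.A X, InAlbKer C α → α = 0) := by
  have h1 : SquaresVanish H X → dg C X ∈ degenerate C X X := fun h =>
    bloch_of_squares hPic hX h hpg.homDeg
  refine ⟨⟨fun h => squares_of_bloch h.mem, fun h => isDegenerate_iff.2 (h1 h)⟩, ?_⟩
  intro h α hα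
  have h2 := degenerate_act hX (h1 h) (inAlbKer_iff.1 hα)
  rwa [act_dg] at h2

end Pool.Agent.Results.MP_7ebcb6_ag.SquaresOfZeroCycles
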